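import Mathlib

open MvPolynomial

namespace Pool.Agent.Results.MP_9e47d4_ag.Common

/-- The space of polynomial 1-forms `ω = P dy - Q dx` with `deg P, deg Q ≤ d`, encoded as `(P, Q)`.
The variables are `X 0 = x` and `X 1 = y`. -/
abbrev Form (d : ℕ) : Type :=
  ↥(restrictTotalDegree (Fin 2) ℂ d) × ↥(restrictTotalDegree (Fin 2) ℂ d)

/-- The projectivisation of the space of forms. -/
abbrev PForm (d : ℕ) : Type := Projectivization ℂ (Form d)

/-- Index set of the coefficients of `(P, Q)`: `Sum.inl s` is the coefficient of the monomial with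
exponent `s` in `P`, `Sum.inr s` the one in `Q`. -/
abbrev Ind : Type := (Fin 2 →₀ ℕ) ⊕ (Fin 2 →₀ ℕ)

/-- The coefficients of a form. -/
noncomputable def coef {d : ℕ} (ω : Form d) : Ind → ℂ :=
  Sum.elim (fun s => coeff s (ω.1 : MvPolynomial (Fin 2) ℂ))
    (fun s => coeff s (ω.2 : MvPolynomial (Fin 2) ℂ))

/-- The common zero set in projective space of a set of polynomials in the coefficients of the
forms. -/
def zeroSet (d : ℕ) (S : Set (MvPolynomial Ind ℂ)) : Set (PForm d) :=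
  {x | ∀ G ∈ S, eval (coef x.rep) G = 0}

/-- Algebraic subsets: common zero sets of sets of homogeneous polynomials. -/
def IsAlgSet (d : ℕ) (Z : Set (PForm d)) : Prop :=
  ∃ S : Set (MvPolynomial Ind ℂ), (∀ G ∈ S, ∃ n, G.IsHomogeneous n) ∧ Z = zeroSet d S

/-- The Zariski topology on the projectivised space of forms: the closed sets are the algebraic
sets. -/
@[instance_reducible]
def zariski (d : ℕ) : TopologicalSpace (PForm d) :=
  TopologicalSpace.ofClosed {Z | IsAlgSet d Z}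
    (by
      refine ⟨{1}, ?_, ?_⟩
      · rintro G rfl
        exact ⟨0, isHomogeneous_one _ _⟩
      · symm
        ext x
        simp [zeroSet])
    (by
      intro A hA
      have hA' : ∀ Z ∈ A, IsAlgSet d Z := fun Z hZ => hA hZ
      choose! S hS using hA'
      refine ⟨⋃ Z ∈ A, S Z, ?_, ?_⟩
      · intro G hG
        simp only [Set.mem_iUnion] at hG
        obtain ⟨Z, hZ, hG⟩ := hG
        exact (hS Z hZ).1 G hG
      · ext x
        simp only [Set.mem_sInter, zeroSet, Set.mem_ofPred_eq, Set.mem_iUnion]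
        constructor
        · rintro h G ⟨Z, hZ, hG⟩
          have := h Z hZ
          rw [(hS Z hZ).2] at this
          exact this G hG
        · intro h Z hZ
          rw [(hS Z hZ).2]
          exact fun G hG => h G ⟨Z, hZ, hG⟩)
    (by
      rintro Z ⟨S, hS, rfl⟩ Z' ⟨S', hS', rfl⟩
      refine ⟨{G | ∃ A ∈ S, ∃ B ∈ S', G = A * B}, ?_, ?_⟩
      · rintro G ⟨A, hA, B, hB, rfl⟩
        obtain ⟨n, hn⟩ := hS A hA
        obtain ⟨m, hm⟩ := hS' B hB
        exact ⟨n + m, hn.mul hm⟩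
      · ext x
        simp only [Set.mem_union, zeroSet, Set.mem_ofPred_eq]
        constructor
        · rintro (h | h) G ⟨A, hA, B, hB, rfl⟩
          · rw [map_mul, h A hA, zero_mul]
          · rw [map_mul, h B hB, mul_zero]
        · intro h
          by_contra hcon
          push Not at hcon
          obtain ⟨⟨A, hA, hA0⟩, ⟨B, hB, hB0⟩⟩ := hcon
          have := h (A * B) ⟨A, hA, B, hB, rfl⟩
          rw [map_mul] at this
          exact (mul_ne_zero hA0 hB0) this)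

instance (d : ℕ) : TopologicalSpace (PForm d) := zariski d

lemma isClosed_iff {d : ℕ} {Z : Set (PForm d)} : IsClosed Z ↔ IsAlgSet d Z := by
  rw [← isOpen_compl_iff]
  show IsAlgSet d (Zᶜᶜ) ↔ _
  rw [compl_compl]

lemma coef_smul {d : ℕ} (c : ℂ) (ω : Form d) : coef (c • ω) = c • coef ω := by
  ext i
  rcases i with s | s <;> simp [coef]

lemma eval_smul_hom {σ : Type*} {G : MvPolynomial σ ℂ} {n : ℕ} (hG : G.IsHomogeneous n) (c : ℂ)
    (v : σ → ℂ) : eval (c • v) G = c ^ n * eval v G := by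
  classical
  rw [eval_eq, eval_eq, Finset.mul_sum]
  apply Finset.sum_congr rfl
  intro s hs
  have hd : s.degree = n := by
    have := hG (mem_support_iff.1 hs)
    rwa [Finsupp.degree_eq_weight_one]
  have : ∏ i ∈ s.support, (c • v) i ^ s i = c ^ n * ∏ i ∈ s.support, v i ^ s i := by
    rw [← hd, Finsupp.degree_apply, ← Finset.prod_pow_eq_pow_sum, ← Finset.prod_mul_distrib]
    apply Finset.prod_congr rfl
    intro i _
    rw [Pi.smul_apply, smul_eq_mul, mul_pow]
  rw [this]; ring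

lemma mk_mem_zeroSet {d : ℕ} {S : Set (MvPolynomial Ind ℂ)} (hS : ∀ G ∈ S, ∃ n, G.IsHomogeneous n)
    (ω : Form d) (h : ω ≠ 0) :
    Projectivization.mk ℂ ω h ∈ zeroSet d S ↔ ∀ G ∈ S, eval (coef ω) G = 0 := by
  obtain ⟨a, ha⟩ := Projectivization.exists_smul_eq_mk_rep ℂ ω h
  have ha' : (Projectivization.mk ℂ ω h).rep = (a : ℂ) • ω := ha.symm
  constructor
  · intro hx G hG
    obtain ⟨n, hn⟩ := hS G hG
    have := hx G hG
    rw [ha', coef_smul, eval_smul_hom hn] at this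
    exact (mul_eq_zero.1 this).resolve_left (pow_ne_zero _ a.ne_zero)
  · intro hx G hG
    obtain ⟨n, hn⟩ := hS G hG
    rw [ha', coef_smul, eval_smul_hom hn, hx G hG, mul_zero]

/-- Partial derivative of a function on `ℂ²` in the direction of the `i`-th coordinate. -/
noncomputable def pd (i : Fin 2) (h : (Fin 2 → ℂ) → ℂ) (z : Fin 2 → ℂ) : ℂ :=
  fderiv ℂ h z (Pi.single i 1)

/-- `p` is a center of the foliation `P dy - Q dx`: a reduced singularity such that there are local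
holomorphic coordinates `(u, v)` centred at `p` with `(P dy - Q dx) ∧ d(u² + v²) = 0`, i.e.
`P ∂(u²+v²)/∂x + Q ∂(u²+v²)/∂y = 0` near `p`. -/
def IsCenter (P Q : MvPolynomial (Fin 2) ℂ) (p : Fin 2 → ℂ) : Prop :=
  eval p P = 0 ∧ eval p Q = 0 ∧
  eval p (pderiv 0 P * pderiv 1 Q - pderiv 1 P * pderiv 0 Q) ≠ 0 ∧
  ∃ u v : (Fin 2 → ℂ) → ℂ, AnalyticAt ℂ u p ∧ AnalyticAt ℂ v p ∧ u p = 0 ∧ v p = 0 ∧
    pd 0 u p * pd 1 v p - pd 1 u p * pd 0 v p ≠ 0 ∧
    ∀ᶠ z in nhds p, eval z P * pd 0 (fun w => u w ^ 2 + v w ^ 2) z +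
      eval z Q * pd 1 (fun w => u w ^ 2 + v w ^ 2) z = 0

/-- The set of foliations of degree `d` (`P, Q` coprime and `max (deg P) (deg Q) = d`) having at
least one center. -/
def centers (d : ℕ) : Set (PForm d) :=
  {x | ∃ (ω : Form d) (h : ω ≠ 0), x = Projectivization.mk ℂ ω h ∧
    IsRelPrime (ω.1 : MvPolynomial (Fin 2) ℂ) (ω.2 : MvPolynomial (Fin 2) ℂ) ∧
    max (ω.1 : MvPolynomial (Fin 2) ℂ).totalDegree (ω.2 : MvPolynomial (Fin 2) ℂ).totalDegree = d ∧
    ∃ p, IsCenter (ω.1 : MvPolynomial (Fin 2) ℂ) (ω.2 : MvPolynomial (Fin 2) ℂ) p}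

/-- The center locus `M(d)`: the closure of the set of foliations with a center. -/
def centerLocus (d : ℕ) : Set (PForm d) := closure (centers d)

/-- `X` is an irreducible component of `M`: a maximal irreducible subset. -/
def IsComponent {d : ℕ} (M X : Set (PForm d)) : Prop :=
  Maximal (fun Y => IsIrreducible Y ∧ Y ⊆ M) X

/-- The set of foliations `df = 0` with `f` a polynomial of degree at most `d + 1`. Writing
`df = P dy - Q dx` means `P = ∂f/∂y`, `Q = -∂f/∂x`. -/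
def hamiltonian (d : ℕ) : Set (PForm d) :=
  {x | ∃ (ω : Form d) (h : ω ≠ 0) (f : MvPolynomial (Fin 2) ℂ), x = Projectivization.mk ℂ ω h ∧
    f.totalDegree ≤ d + 1 ∧ (ω.1 : MvPolynomial (Fin 2) ℂ) = pderiv 1 f ∧
    (ω.2 : MvPolynomial (Fin 2) ℂ) = -pderiv 0 f}

/-! ### Noetherianity -/

/-- the finitely many relevant coefficients -/
def Rel (d : ℕ) : Set Ind := {i | Sum.elim (fun s => s.degree) (fun s => s.degree) i ≤ d}

lemma finite_degree_le (d : ℕ) : {s : Fin 2 →₀ ℕ | s.degree ≤ d}.Finite := by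
  have : {s : Fin 2 →₀ ℕ | s.degree ≤ d} ⊆
      Set.Iic (Finsupp.equivFunOnFinite.symm (fun _ : Fin 2 => d)) := by
    intro s hs i
    simp only [Finsupp.equivFunOnFinite_symm_apply_apply]
    exact (Finsupp.le_degree i s).trans hs
  exact (Set.finite_Iic _).subset this

instance finite_Rel (d : ℕ) : Finite (Rel d) := by
  have h : Rel d ⊆ (Sum.inl '' {s : Fin 2 →₀ ℕ | s.degree ≤ d}) ∪
      (Sum.inr '' {s : Fin 2 →₀ ℕ | s.degree ≤ d}) := by
    rintro (s | s) hs
    · exact Or.inl ⟨s, hs, rfl⟩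
    · exact Or.inr ⟨s, hs, rfl⟩
  exact ((((finite_degree_le d).image _).union ((finite_degree_le d).image _)).subset h).to_subtype

lemma coef_eq_zero {d : ℕ} (ω : Form d) {i : Ind} (hi : i ∉ Rel d) : coef ω i = 0 := by
  have key : ∀ (P : ↥(restrictTotalDegree (Fin 2) ℂ d)) (s : Fin 2 →₀ ℕ), ¬ s.degree ≤ d →
      coeff s (P : MvPolynomial (Fin 2) ℂ) = 0 := by
    intro P s hs
    have hP := (mem_restrictTotalDegree _ _ _).1 P.2
    apply coeff_eq_zero_of_totalDegree_lt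
    rw [← Finsupp.degree_apply]
    omega
  rcases i with s | s
  · exact key _ _ hi
  · exact key _ _ hi

open Classical in
/-- forget the irrelevant variables -/
noncomputable def forget (d : ℕ) : MvPolynomial Ind ℂ →ₐ[ℂ] MvPolynomial (Rel d) ℂ :=
  aeval fun i => if h : i ∈ Rel d then X ⟨i, h⟩ else 0

lemma eval_forget {d : ℕ} (ω : Form d) (G : MvPolynomial Ind ℂ) :
    eval (fun i : Rel d => coef ω i) (forget d G) = eval (coef ω) G := by
  have : (eval (fun i : Rel d => coef ω i)).comp (forget d).toRingHom = eval (coef ω) := by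
    apply MvPolynomial.ringHom_ext
    · intro x; simp [forget]
    · intro i
      by_cases hi : i ∈ Rel d
      · simp [forget, hi]
      · simp [forget, hi, coef_eq_zero ω hi]
  exact DFunLike.congr_fun this G

/-- the vanishing ideal in finitely many variables -/
def vIdeal {d : ℕ} (Z : Set (PForm d)) : Ideal (MvPolynomial (Rel d) ℂ) where
  carrier := {G | ∀ x ∈ Z, eval (fun i : Rel d => coef x.rep i) G = 0}
  add_mem' := by
    intro a b ha hb x hx
    rw [map_add, ha x hx, hb x hx, add_zero]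
  zero_mem' := by intro x _; simp
  smul_mem' := by
    intro c a ha x hx
    rw [smul_eq_mul, map_mul, ha x hx, mul_zero]

lemma mem_of_vIdeal {d : ℕ} {Z : Set (PForm d)} (hZ : IsClosed Z) {x : PForm d}
    (hx : ∀ G ∈ vIdeal Z, eval (fun i : Rel d => coef x.rep i) G = 0) : x ∈ Z := by
  obtain ⟨S, hS, rfl⟩ := isClosed_iff.1 hZ
  intro G hG
  rw [← eval_forget]
  apply hx
  intro y hy
  rw [eval_forget]
  exact hy G hG

lemma vIdeal_strictAnti {d : ℕ} {Z Z' : TopologicalSpace.Closeds (PForm d)} (h : Z < Z') :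
    vIdeal (Z' : Set (PForm d)) < vIdeal (Z : Set (PForm d)) := by
  refine lt_of_le_of_ne ?_ ?_
  · intro G hG x hx
    exact hG x (h.le hx)
  · intro he
    apply h.not_ge
    intro x hx
    refine mem_of_vIdeal (Z := (Z : Set (PForm d))) Z.2 fun G hG => ?_
    rw [← he] at hG
    exact hG x hx

instance noeth (d : ℕ) : TopologicalSpace.NoetherianSpace (PForm d) := by
  have hN : WellFounded (fun I J : Ideal (MvPolynomial (Rel d) ℂ) => I > J) := wellFounded_gt
  have key : WellFoundedLT (TopologicalSpace.Closeds (PForm d)) :=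
    ⟨(InvImage.wf (fun Z : TopologicalSpace.Closeds (PForm d) =>
      vIdeal (Z : Set (PForm d))) hN).mono (fun Z Z' h => vIdeal_strictAnti h)⟩
  exact ((TopologicalSpace.noetherianSpace_TFAE (PForm d)).out 0 1 :
    TopologicalSpace.NoetherianSpace (PForm d) ↔
      WellFoundedLT (TopologicalSpace.Closeds (PForm d))).2 key

/-- If `X` is a maximal irreducible subset of a closed set `M` then `M ⊆ X ∪ Y` for some closed
`Y` not containing `X`. -/
lemma exists_complement {α : Type*} [TopologicalSpace α] [TopologicalSpace.NoetherianSpace α]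
    {M X : Set α} (hM : IsClosed M) (hX : Maximal (fun Y => IsIrreducible Y ∧ Y ⊆ M) X) :
    ∃ Y : Set α, IsClosed Y ∧ M ⊆ X ∪ Y ∧ ¬ X ⊆ Y := by
  obtain ⟨S, hSf, hSc, hSi, hSU⟩ :=
    TopologicalSpace.NoetherianSpace.exists_finite_set_isClosed_irreducible hM
  have key : ∀ T : Set (Set α), T ⊆ S → X ⊆ ⋃₀ T → ∃ t ∈ T, X ⊆ t := by
    intro T hT hXT
    have hTf : T.Finite := hSf.subset hT
    obtain ⟨t, ht, hXt⟩ := (isIrreducible_iff_sUnion_isClosed.1 hX.prop.1) hTf.toFinset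
      (fun z hz => hSc z (hT (hTf.mem_toFinset.1 hz))) (by rwa [hTf.coe_toFinset])
    exact ⟨t, hTf.mem_toFinset.1 ht, hXt⟩
  obtain ⟨t, ht, hXt⟩ := key S subset_rfl (hSU ▸ hX.prop.2)
  have hsub : ∀ t' ∈ S, t' ⊆ M := fun t' ht' => hSU ▸ Set.subset_sUnion_of_mem ht'
  have hmax : ∀ t' ∈ S, X ⊆ t' → t' = X := fun t' ht' h =>
    Set.Subset.antisymm (hX.le_of_ge ⟨hSi t' ht', hsub t' ht'⟩ h) h
  have htX : t = X := hmax t ht hXt
  refine ⟨⋃₀ (S \ {t}), ?_, ?_, ?_⟩
  · rw [Set.sUnion_eq_biUnion]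
    exact (hSf.subset Set.sdiff_subset).isClosed_biUnion fun z hz => hSc z hz.1
  · rw [hSU]
    intro x hx
    obtain ⟨z, hz, hxz⟩ := hx
    by_cases hzt : z = t
    · left; rw [← htX, ← hzt]; exact hxz
    · right; exact ⟨z, ⟨hz, hzt⟩, hxz⟩
  · intro h
    obtain ⟨z, hz, hXz⟩ := key (S \ {t}) Set.sdiff_subset h
    exact hz.2 (by rw [Set.mem_singleton_iff, htX]; exact hmax z hz.1 hXz)

/-! ### The linear part of a form at a center -/

section Jet

/-- chain rule for a polynomial curve -/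
lemma derivative_aeval {A : Type*} [CommRing A] [Algebra ℂ A] (f : Fin 2 → Polynomial A)
    (P : MvPolynomial (Fin 2) ℂ) :
    Polynomial.derivative (aeval f P) =
      aeval f (pderiv 0 P) * Polynomial.derivative (f 0) +
        aeval f (pderiv 1 P) * Polynomial.derivative (f 1) := by
  induction P using MvPolynomial.induction_on with
  | C a =>
    simp only [pderiv_C, map_zero, zero_mul, add_zero, aeval_C]
    rw [Polynomial.algebraMap_apply, Polynomial.derivative_C]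
  | add P Q hP hQ =>
    simp only [map_add, hP, hQ]
    ring
  | mul_X P i hP =>
    simp only [map_mul, aeval_X, Polynomial.derivative_mul, hP, pderiv_mul, map_add]
    fin_cases i
    · simp [pderiv_X]
      ring
    · simp [pderiv_X]
      ring

/-- slope of a polynomial vanishing at `p` along a line through `p` -/
lemma poly_slope (P : MvPolynomial (Fin 2) ℂ) (p w : Fin 2 → ℂ) (h0 : eval p P = 0) :
    Filter.Tendsto (fun t : ℂ => t⁻¹ * eval (p + t • w) P) (nhdsWithin 0 {0}ᶜ)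
      (nhds (eval p (pderiv 0 P) * w 0 + eval p (pderiv 1 P) * w 1)) := by
  let f : Fin 2 → Polynomial ℂ := fun i => Polynomial.C (p i) + Polynomial.X * Polynomial.C (w i)
  have hev : ∀ (t : ℂ) (Q : MvPolynomial (Fin 2) ℂ), (aeval f Q).eval t = eval (p + t • w) Q := by
    intro t Q
    rw [← Polynomial.coe_evalRingHom]
    have : (Polynomial.evalRingHom t).comp (aeval f).toRingHom = eval (p + t • w) := by
      apply MvPolynomial.ringHom_ext
      · intro x; simp
      · intro s; simp [f]; ring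
    exact DFunLike.congr_fun this Q
  have hd := (aeval f P).hasDerivAt 0
  have hs := hd.tendsto_slope_zero
  rw [derivative_aeval] at hs
  simp only [zero_add, hev, zero_smul, add_zero, h0, sub_zero, smul_eq_mul, Polynomial.eval_add,
    Polynomial.eval_mul] at hs
  simpa [f] using hs

lemma fderiv_apply_eq (u : (Fin 2 → ℂ) → ℂ) (p w : Fin 2 → ℂ) :
    fderiv ℂ u p w = pd 0 u p * w 0 + pd 1 u p * w 1 := by
  have : w = w 0 • (Pi.single 0 1 : Fin 2 → ℂ) + w 1 • (Pi.single 1 1 : Fin 2 → ℂ) := by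
    ext i; fin_cases i <;> simp
  conv_lhs => rw [this]
  rw [map_add, map_smul, map_smul]
  simp only [pd, smul_eq_mul]
  ring

/-- slope of a differentiable function vanishing at `p` along a line through `p` -/
lemma fun_slope {u : (Fin 2 → ℂ) → ℂ} {p : Fin 2 → ℂ} (w : Fin 2 → ℂ)
    (hu : DifferentiableAt ℂ u p) (h0 : u p = 0) :
    Filter.Tendsto (fun t : ℂ => t⁻¹ * u (p + t • w)) (nhdsWithin 0 {0}ᶜ)
      (nhds (pd 0 u p * w 0 + pd 1 u p * w 1)) := by
  have h1 : HasDerivAt (fun t : ℂ => p + t • w) w 0 := by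
    have := ((hasDerivAt_id (0 : ℂ)).smul_const w).const_add p
    simpa using this
  have h2 : HasFDerivAt u (fderiv ℂ u p) (p + (0 : ℂ) • w) := by
    simpa using hu.hasFDerivAt
  have h3 := h2.comp_hasDerivAt (0 : ℂ) h1
  have hs := h3.tendsto_slope_zero
  simp only [zero_add, Function.comp_apply, zero_smul, add_zero, h0, sub_zero, smul_eq_mul,
    fderiv_apply_eq] at hs
  exact hs

lemma pd_sq_add_sq {u v : (Fin 2 → ℂ) → ℂ} {z : Fin 2 → ℂ} (hu : DifferentiableAt ℂ u z)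
    (hv : DifferentiableAt ℂ v z) (i : Fin 2) :
    pd i (fun w => u w ^ 2 + v w ^ 2) z = 2 * (u z * pd i u z + v z * pd i v z) := by
  unfold pd
  have h1 := (hu.hasFDerivAt.pow 2).add (hv.hasFDerivAt.pow 2)
  have h2 : HasFDerivAt (fun w => u w ^ 2 + v w ^ 2) _ z := h1
  rw [h2.fderiv]
  simp
  ring

lemma tendsto_line (p w : Fin 2 → ℂ) :
    Filter.Tendsto (fun t : ℂ => p + t • w) (nhdsWithin 0 {0}ᶜ) (nhds p) := by
  have : Continuous (fun t : ℂ => p + t • w) := by fun_prop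
  have h := this.tendsto 0
  simp only [zero_smul, add_zero] at h
  exact h.mono_left nhdsWithin_le_nhds

/-- slope of the derivative of `u² + v²` -/
lemma grad_slope {u v : (Fin 2 → ℂ) → ℂ} {p : Fin 2 → ℂ} (w : Fin 2 → ℂ)
    (hu : AnalyticAt ℂ u p) (hv : AnalyticAt ℂ v p) (hu0 : u p = 0) (hv0 : v p = 0) (i : Fin 2) :
    Filter.Tendsto (fun t : ℂ => t⁻¹ * pd i (fun w => u w ^ 2 + v w ^ 2) (p + t • w))
      (nhdsWithin 0 {0}ᶜ)
      (nhds (2 * ((pd 0 u p * w 0 + pd 1 u p * w 1) * pd i u p +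
        (pd 0 v p * w 0 + pd 1 v p * w 1) * pd i v p))) := by
  have hl := tendsto_line p w
  have hcu : ContinuousAt (pd i u) p := (hu.fderiv.continuousAt).clm_apply continuousAt_const
  have hcv : ContinuousAt (pd i v) p := (hv.fderiv.continuousAt).clm_apply continuousAt_const
  have h1 := ((fun_slope w hu.differentiableAt hu0).mul (hcu.tendsto.comp hl)).add
    ((fun_slope w hv.differentiableAt hv0).mul (hcv.tendsto.comp hl))
  have h2 := h1.const_mul 2
  refine h2.congr' ?_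
  have e1 := hl.eventually hu.eventually_analyticAt
  have e2 := hl.eventually hv.eventually_analyticAt
  filter_upwards [e1, e2] with t h1 h2
  rw [pd_sq_add_sq h1.differentiableAt h2.differentiableAt]
  simp only [Function.comp_apply]
  ring

/-- Linear algebra: if `P₁ qₓ + Q₁ q_y = 0` for linear forms and a nondegenerate quadratic form
`q`, then `(P₁, Q₁)` is proportional to `(q_y, -qₓ)`. -/
lemma linear_algebra {p1 p2 q1 q2 a b c : ℂ} (hdet : a * c - b * b ≠ 0)
    (h1 : p1 * a + q1 * b = 0) (h2 : p1 * b + p2 * a + q1 * c + q2 * b = 0)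
    (h3 : p2 * b + q2 * c = 0) :
    ∃ κ : ℂ, p1 = κ * b ∧ p2 = κ * c ∧ q1 = -(κ * a) ∧ q2 = -(κ * b) := by
  have h4 : p1 + q2 = 0 := by
    have : (p1 + q2) * (a * c - b * b) = 0 := by
      linear_combination c * h1 + a * h3 - b * h2
    exact (mul_eq_zero.1 this).resolve_right hdet
  refine ⟨(p2 * a - p1 * b) / (a * c - b * b), ?_, ?_, ?_, ?_⟩
  · rw [eq_comm, div_mul_eq_mul_div, div_eq_iff hdet]
    linear_combination (-a) * (c * h4 - h3)
  · rw [eq_comm, div_mul_eq_mul_div, div_eq_iff hdet]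
    linear_combination (-b) * (c * h4 - h3)
  · rw [eq_comm, neg_eq_iff_eq_neg, div_mul_eq_mul_div, div_eq_iff hdet]
    linear_combination a * (h2 - b * h4) - b * h1
  · rw [eq_comm, neg_eq_iff_eq_neg, div_mul_eq_mul_div, div_eq_iff hdet]
    linear_combination (-a) * (c * h4 - h3) + (a * c - b * b) * h4

/-- The 1-jet of a form at a center is proportional to the differential of the quadratic form
`(uₓ x + u_y y)² + (vₓ x + v_y y)²`. -/
lemma jet {P Q : MvPolynomial (Fin 2) ℂ} {p : Fin 2 → ℂ} (hc : IsCenter P Q p) :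
    ∃ u0 u1 v0 v1 κ : ℂ, κ ≠ 0 ∧ u0 * v1 - u1 * v0 ≠ 0 ∧
      eval p (pderiv 0 P) = κ * (u0 * u1 + v0 * v1) ∧
      eval p (pderiv 1 P) = κ * (u1 * u1 + v1 * v1) ∧
      eval p (pderiv 0 Q) = -(κ * (u0 * u0 + v0 * v0)) ∧
      eval p (pderiv 1 Q) = -(κ * (u0 * u1 + v0 * v1)) := by
  obtain ⟨hP0, hQ0, hred, u, v, hu, hv, hu0, hv0, hJ, hev⟩ := hc
  set p1 := eval p (pderiv 0 P) with hp1
  set p2 := eval p (pderiv 1 P) with hp2
  set q1 := eval p (pderiv 0 Q) with hq1
  set q2 := eval p (pderiv 1 Q) with hq2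
  set u0 := pd 0 u p with hu0'
  set u1 := pd 1 u p with hu1'
  set v0 := pd 0 v p with hv0'
  set v1 := pd 1 v p with hv1'
  have key : ∀ w : Fin 2 → ℂ,
      (p1 * w 0 + p2 * w 1) * (2 * ((u0 * w 0 + u1 * w 1) * u0 + (v0 * w 0 + v1 * w 1) * v0)) +
      (q1 * w 0 + q2 * w 1) * (2 * ((u0 * w 0 + u1 * w 1) * u1 + (v0 * w 0 + v1 * w 1) * v1))
        = 0 := by
    intro w
    have l1 := (poly_slope P p w hP0).mul (grad_slope w hu hv hu0 hv0 0)
    have l2 := (poly_slope Q p w hQ0).mul (grad_slope w hu hv hu0 hv0 1)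
    have l3 := l1.add l2
    have e := (tendsto_line p w).eventually hev
    have l4 : Filter.Tendsto (fun t : ℂ => t⁻¹ * eval (p + t • w) P *
        (t⁻¹ * pd 0 (fun w => u w ^ 2 + v w ^ 2) (p + t • w)) +
        t⁻¹ * eval (p + t • w) Q * (t⁻¹ * pd 1 (fun w => u w ^ 2 + v w ^ 2) (p + t • w)))
        (nhdsWithin 0 {0}ᶜ) (nhds 0) := by
      refine Filter.Tendsto.congr' ?_ (tendsto_const_nhds (x := (0 : ℂ)))
      filter_upwards [e] with t ht
      have : t⁻¹ * eval (p + t • w) P *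
        (t⁻¹ * pd 0 (fun w => u w ^ 2 + v w ^ 2) (p + t • w)) +
        t⁻¹ * eval (p + t • w) Q * (t⁻¹ * pd 1 (fun w => u w ^ 2 + v w ^ 2) (p + t • w)) =
        t⁻¹ * t⁻¹ * (eval (p + t • w) P * pd 0 (fun w => u w ^ 2 + v w ^ 2) (p + t • w) +
          eval (p + t • w) Q * pd 1 (fun w => u w ^ 2 + v w ^ 2) (p + t • w)) := by ring
      rw [this, ht, mul_zero]
    exact tendsto_nhds_unique l3 l4
  have hdet : (u0 * u0 + v0 * v0) * (u1 * u1 + v1 * v1) -
      (u0 * u1 + v0 * v1) * (u0 * u1 + v0 * v1) ≠ 0 := by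
    have : (u0 * u0 + v0 * v0) * (u1 * u1 + v1 * v1) -
      (u0 * u1 + v0 * v1) * (u0 * u1 + v0 * v1) = (u0 * v1 - u1 * v0) ^ 2 := by ring
    rw [this]
    exact pow_ne_zero 2 hJ
  have k1 := key ![1, 0]
  have k2 := key ![0, 1]
  have k3 := key ![1, 1]
  simp only [Matrix.cons_val_zero, Matrix.cons_val_one] at k1 k2 k3
  obtain ⟨κ, e1, e2, e3, e4⟩ := linear_algebra (p1 := p1) (p2 := p2) (q1 := q1) (q2 := q2) hdet
    (by linear_combination k1 / 2)
    (by linear_combination (k3 - k1 - k2) / 2)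
    (by linear_combination k2 / 2)
  refine ⟨u0, u1, v0, v1, κ, ?_, hJ, e1, e2, e3, e4⟩
  rintro rfl
  apply hred
  rw [map_sub, map_mul, map_mul, ← hp1, ← hp2, ← hq1, ← hq2, e1, e2, e3, e4]
  ring

end Jet

/-! ### Pull-back under affine maps -/

section Pullback

variable (g00 g01 g10 g11 e0 e1 : ℂ)

/-- substitution of an affine map -/
noncomputable def sub : MvPolynomial (Fin 2) ℂ →ₐ[ℂ] MvPolynomial (Fin 2) ℂ :=
  aeval ![C g00 * X 0 + C g01 * X 1 + C e0, C g10 * X 0 + C g11 * X 1 + C e1]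

/-- the affine map -/
def gm (z : Fin 2 → ℂ) : Fin 2 → ℂ :=
  ![g00 * z 0 + g01 * z 1 + e0, g10 * z 0 + g11 * z 1 + e1]

lemma eval_sub (z : Fin 2 → ℂ) (P : MvPolynomial (Fin 2) ℂ) :
    eval z (sub g00 g01 g10 g11 e0 e1 P) = eval (gm g00 g01 g10 g11 e0 e1 z) P := by
  have : (eval z).comp (sub g00 g01 g10 g11 e0 e1).toRingHom =
      eval (gm g00 g01 g10 g11 e0 e1 z) := by
    apply MvPolynomial.ringHom_ext
    · intro x; simp [sub]
    · intro i; fin_cases i <;> simp [sub, gm]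
  exact DFunLike.congr_fun this P

lemma totalDegree_sub_le (P : MvPolynomial (Fin 2) ℂ) :
    (sub g00 g01 g10 g11 e0 e1 P).totalDegree ≤ P.totalDegree := by
  classical
  conv_lhs => rw [P.as_sum]
  rw [map_sum]
  apply totalDegree_finsetSum_le
  intro s hs
  have h1 : ∀ a b c : ℂ, (C a * X 0 + C b * X 1 + C c : MvPolynomial (Fin 2) ℂ).totalDegree ≤ 1 := by
    intro a b c
    refine (totalDegree_add _ _).trans (max_le ((totalDegree_add _ _).trans (max_le ?_ ?_)) ?_)
    · refine (totalDegree_mul _ _).trans ?_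
      simp
    · refine (totalDegree_mul _ _).trans ?_
      simp
    · simp
  have hdeg : s 0 + s 1 ≤ P.totalDegree := by
    have := le_totalDegree hs
    rwa [Finsupp.sum_fintype _ _ (by simp), Fin.sum_univ_two] at this
  rw [sub, aeval_monomial, Finsupp.prod_fintype _ _ (by simp), Fin.prod_univ_two]
  simp only [Matrix.cons_val_zero, Matrix.cons_val_one, algebraMap_eq]
  refine (totalDegree_mul _ _).trans ?_
  rw [totalDegree_C, zero_add]
  refine (totalDegree_mul _ _).trans ?_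
  have a1 := (totalDegree_pow (C g00 * X 0 + C g01 * X 1 + C e0 : MvPolynomial (Fin 2) ℂ) (s 0)).trans
    (Nat.mul_le_mul_left _ (h1 g00 g01 e0))
  have a2 := (totalDegree_pow (C g10 * X 0 + C g11 * X 1 + C e1 : MvPolynomial (Fin 2) ℂ) (s 1)).trans
    (Nat.mul_le_mul_left _ (h1 g10 g11 e1))
  omega

lemma pderiv0_sub (P : MvPolynomial (Fin 2) ℂ) :
    pderiv 0 (sub g00 g01 g10 g11 e0 e1 P) =
      C g00 * sub g00 g01 g10 g11 e0 e1 (pderiv 0 P) +
      C g10 * sub g00 g01 g10 g11 e0 e1 (pderiv 1 P) := by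
  induction P using MvPolynomial.induction_on with
  | C a => simp [sub]
  | add P Q hP hQ => simp only [map_add, hP, hQ]; ring
  | mul_X P i hP =>
    simp only [map_mul, pderiv_mul, hP, map_add]
    fin_cases i <;> simp [sub, pderiv_X] <;> ring

lemma pderiv1_sub (P : MvPolynomial (Fin 2) ℂ) :
    pderiv 1 (sub g00 g01 g10 g11 e0 e1 P) =
      C g01 * sub g00 g01 g10 g11 e0 e1 (pderiv 0 P) +
      C g11 * sub g00 g01 g10 g11 e0 e1 (pderiv 1 P) := by
  induction P using MvPolynomial.induction_on with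
  | C a => simp [sub]
  | add P Q hP hQ => simp only [map_add, hP, hQ]; ring
  | mul_X P i hP =>
    simp only [map_mul, pderiv_mul, hP, map_add]
    fin_cases i <;> simp [sub, pderiv_X] <;> ring

/-- first component of the pull-back of `P dy - Q dx` -/
noncomputable def pbP (P Q : MvPolynomial (Fin 2) ℂ) : MvPolynomial (Fin 2) ℂ :=
  C g11 * sub g00 g01 g10 g11 e0 e1 P - C g01 * sub g00 g01 g10 g11 e0 e1 Q

/-- second component of the pull-back of `P dy - Q dx` -/
noncomputable def pbQ (P Q : MvPolynomial (Fin 2) ℂ) : MvPolynomial (Fin 2) ℂ :=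
  C g00 * sub g00 g01 g10 g11 e0 e1 Q - C g10 * sub g00 g01 g10 g11 e0 e1 P

variable {g00 g01 g10 g11}

/-- composing with the inverse substitution -/
lemma sub_comp {h00 h01 h10 h11 f0 f1 : ℂ} (a1 : g00 * h00 + g01 * h10 = 1)
    (a2 : g00 * h01 + g01 * h11 = 0) (a3 : g00 * f0 + g01 * f1 + e0 = 0)
    (a4 : g10 * h00 + g11 * h10 = 0) (a5 : g10 * h01 + g11 * h11 = 1)
    (a6 : g10 * f0 + g11 * f1 + e1 = 0) (P : MvPolynomial (Fin 2) ℂ) :
    sub h00 h01 h10 h11 f0 f1 (sub g00 g01 g10 g11 e0 e1 P) = P := by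
  have : (sub h00 h01 h10 h11 f0 f1).comp (sub g00 g01 g10 g11 e0 e1) = AlgHom.id ℂ _ := by
    apply MvPolynomial.algHom_ext
    intro i
    fin_cases i
    · simp only [sub, AlgHom.comp_apply, aeval_X, Fin.zero_eta, Matrix.cons_val_zero, map_add,
        map_mul, Matrix.cons_val_one, AlgHom.id_apply, algHom_C, algebraMap_eq]
      have e1' : (C g00 * (C h00 * X 0 + C h01 * X 1 + C f0) +
          C g01 * (C h10 * X 0 + C h11 * X 1 + C f1) + C e0 : MvPolynomial (Fin 2) ℂ) =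
          C (g00 * h00 + g01 * h10) * X 0 + C (g00 * h01 + g01 * h11) * X 1 +
          C (g00 * f0 + g01 * f1 + e0) := by
        simp only [C_add, C_mul]; ring
      rw [e1', a1, a2, a3]
      simp
    · simp only [sub, AlgHom.comp_apply, aeval_X, Fin.mk_one, Matrix.cons_val_zero, map_add,
        map_mul, Matrix.cons_val_one, AlgHom.id_apply, algHom_C, algebraMap_eq]
      have e1' : (C g10 * (C h00 * X 0 + C h01 * X 1 + C f0) +
          C g11 * (C h10 * X 0 + C h11 * X 1 + C f1) + C e1 : MvPolynomial (Fin 2) ℂ) =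
          C (g10 * h00 + g11 * h10) * X 0 + C (g10 * h01 + g11 * h11) * X 1 +
          C (g10 * f0 + g11 * f1 + e1) := by
        simp only [C_add, C_mul]; ring
      rw [e1', a4, a5, a6]
      simp
  exact DFunLike.congr_fun this P

/-- existence of the inverse substitution -/
lemma exists_inv (hδ : g00 * g11 - g01 * g10 ≠ 0) :
    ∃ τ : MvPolynomial (Fin 2) ℂ →ₐ[ℂ] MvPolynomial (Fin 2) ℂ,
      (∀ P, τ (sub g00 g01 g10 g11 e0 e1 P) = P) ∧
      (∀ P, sub g00 g01 g10 g11 e0 e1 (τ P) = P) ∧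
      (∀ P, (τ P).totalDegree ≤ P.totalDegree) := by
  obtain ⟨i, hi⟩ : ∃ i, (g00 * g11 - g01 * g10) * i = 1 := ⟨_, mul_inv_cancel₀ hδ⟩
  refine ⟨sub (g11 * i) (-g01 * i) (-g10 * i) (g00 * i) ((g01 * e1 - g11 * e0) * i)
    ((g10 * e0 - g00 * e1) * i), ?_, ?_, fun P => totalDegree_sub_le _ _ _ _ _ _ P⟩
  · intro P
    apply sub_comp
    · linear_combination hi
    · ring
    · linear_combination (-e0) * hi
    · ring
    · linear_combination hi
    · linear_combination (-e1) * hi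
  · intro P
    apply sub_comp
    · linear_combination hi
    · ring
    · ring
    · ring
    · linear_combination hi
    · ring

lemma det_mul_sub_P (P Q : MvPolynomial (Fin 2) ℂ) :
    C (g00 * g11 - g01 * g10) * sub g00 g01 g10 g11 e0 e1 P =
      C g00 * pbP g00 g01 g10 g11 e0 e1 P Q + C g01 * pbQ g00 g01 g10 g11 e0 e1 P Q := by
  simp only [pbP, pbQ, C_sub, C_mul]; ring

lemma det_mul_sub_Q (P Q : MvPolynomial (Fin 2) ℂ) :
    C (g00 * g11 - g01 * g10) * sub g00 g01 g10 g11 e0 e1 Q =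
      C g10 * pbP g00 g01 g10 g11 e0 e1 P Q + C g11 * pbQ g00 g01 g10 g11 e0 e1 P Q := by
  simp only [pbP, pbQ, C_sub, C_mul]; ring

lemma relPrime_pb (hδ : g00 * g11 - g01 * g10 ≠ 0) {P Q : MvPolynomial (Fin 2) ℂ}
    (h : IsRelPrime P Q) :
    IsRelPrime (pbP g00 g01 g10 g11 e0 e1 P Q) (pbQ g00 g01 g10 g11 e0 e1 P Q) := by
  intro D hD1 hD2
  obtain ⟨τ, hτ1, hτ2, -⟩ := exists_inv e0 e1 hδ
  have hC : IsUnit (C (g00 * g11 - g01 * g10) : MvPolynomial (Fin 2) ℂ) :=
    (IsUnit.mk0 _ hδ).map C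
  have h1 : D ∣ sub g00 g01 g10 g11 e0 e1 P := by
    rw [← hC.dvd_mul_left (b := sub g00 g01 g10 g11 e0 e1 P), det_mul_sub_P e0 e1 P Q]
    exact dvd_add (dvd_mul_of_dvd_right hD1 _) (dvd_mul_of_dvd_right hD2 _)
  have h2 : D ∣ sub g00 g01 g10 g11 e0 e1 Q := by
    rw [← hC.dvd_mul_left (b := sub g00 g01 g10 g11 e0 e1 Q), det_mul_sub_Q e0 e1 P Q]
    exact dvd_add (dvd_mul_of_dvd_right hD1 _) (dvd_mul_of_dvd_right hD2 _)
  have i1 := map_dvd τ h1
  have i2 := map_dvd τ h2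
  rw [hτ1] at i1 i2
  have hu := (h i1 i2).map (sub g00 g01 g10 g11 e0 e1)
  rwa [hτ2] at hu

lemma totalDegree_C_mul_le (a : ℂ) (P : MvPolynomial (Fin 2) ℂ) :
    (C a * P).totalDegree ≤ P.totalDegree := by
  refine (totalDegree_mul _ _).trans ?_
  simp

lemma totalDegree_pbP_le {P Q : MvPolynomial (Fin 2) ℂ} {n : ℕ} (hP : P.totalDegree ≤ n)
    (hQ : Q.totalDegree ≤ n) : (pbP g00 g01 g10 g11 e0 e1 P Q).totalDegree ≤ n := by
  refine (totalDegree_sub _ _).trans (max_le ?_ ?_)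
  · exact (totalDegree_C_mul_le _ _).trans ((totalDegree_sub_le _ _ _ _ _ _ _).trans hP)
  · exact (totalDegree_C_mul_le _ _).trans ((totalDegree_sub_le _ _ _ _ _ _ _).trans hQ)

lemma totalDegree_pbQ_le {P Q : MvPolynomial (Fin 2) ℂ} {n : ℕ} (hP : P.totalDegree ≤ n)
    (hQ : Q.totalDegree ≤ n) : (pbQ g00 g01 g10 g11 e0 e1 P Q).totalDegree ≤ n := by
  refine (totalDegree_sub _ _).trans (max_le ?_ ?_)
  · exact (totalDegree_C_mul_le _ _).trans ((totalDegree_sub_le _ _ _ _ _ _ _).trans hQ)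
  · exact (totalDegree_C_mul_le _ _).trans ((totalDegree_sub_le _ _ _ _ _ _ _).trans hP)

lemma deg_pb (hδ : g00 * g11 - g01 * g10 ≠ 0) (P Q : MvPolynomial (Fin 2) ℂ) :
    max (pbP g00 g01 g10 g11 e0 e1 P Q).totalDegree (pbQ g00 g01 g10 g11 e0 e1 P Q).totalDegree =
      max P.totalDegree Q.totalDegree := by
  apply le_antisymm
  · exact max_le (totalDegree_pbP_le e0 e1 (le_max_left _ _) (le_max_right _ _))
      (totalDegree_pbQ_le e0 e1 (le_max_left _ _) (le_max_right _ _))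
  · obtain ⟨τ, hτ1, -, hτ3⟩ := exists_inv e0 e1 hδ
    set n := max (pbP g00 g01 g10 g11 e0 e1 P Q).totalDegree
      (pbQ g00 g01 g10 g11 e0 e1 P Q).totalDegree with hn
    have hinv : ∀ R : MvPolynomial (Fin 2) ℂ, R = C (g00 * g11 - g01 * g10)⁻¹ *
        (C (g00 * g11 - g01 * g10) * R) := by
      intro R
      rw [← mul_assoc, ← C_mul, inv_mul_cancel₀ hδ, C_1, one_mul]
    have hP : (sub g00 g01 g10 g11 e0 e1 P).totalDegree ≤ n := by
      rw [hinv (sub g00 g01 g10 g11 e0 e1 P), det_mul_sub_P e0 e1 P Q]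
      refine (totalDegree_C_mul_le _ _).trans ((totalDegree_add _ _).trans (max_le ?_ ?_))
      · exact (totalDegree_C_mul_le _ _).trans (le_max_left _ _)
      · exact (totalDegree_C_mul_le _ _).trans (le_max_right _ _)
    have hQ : (sub g00 g01 g10 g11 e0 e1 Q).totalDegree ≤ n := by
      rw [hinv (sub g00 g01 g10 g11 e0 e1 Q), det_mul_sub_Q e0 e1 P Q]
      refine (totalDegree_C_mul_le _ _).trans ((totalDegree_add _ _).trans (max_le ?_ ?_))
      · exact (totalDegree_C_mul_le _ _).trans (le_max_left _ _)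
      · exact (totalDegree_C_mul_le _ _).trans (le_max_right _ _)
    apply max_le
    · have := hτ3 (sub g00 g01 g10 g11 e0 e1 P)
      rw [hτ1] at this
      exact this.trans hP
    · have := hτ3 (sub g00 g01 g10 g11 e0 e1 Q)
      rw [hτ1] at this
      exact this.trans hQ

variable (g00 g01 g10 g11) in
lemma gm_analyticAt (z : Fin 2 → ℂ) : AnalyticAt ℂ (gm g00 g01 g10 g11 e0 e1) z := by
  have hp : ∀ i : Fin 2, AnalyticAt ℂ (fun w : Fin 2 → ℂ => w i) z := fun i =>
    (ContinuousLinearMap.proj (R := ℂ) (φ := fun _ : Fin 2 => ℂ) i).analyticAt z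
  rw [analyticAt_pi_iff]
  intro i
  fin_cases i
  · exact ((analyticAt_const.mul (hp 0)).add (analyticAt_const.mul (hp 1))).add analyticAt_const
  · exact ((analyticAt_const.mul (hp 0)).add (analyticAt_const.mul (hp 1))).add analyticAt_const

lemma line_deriv {h : (Fin 2 → ℂ) → ℂ} {z : Fin 2 → ℂ} (w : Fin 2 → ℂ)
    (hh : DifferentiableAt ℂ h z) :
    HasDerivAt (fun t : ℂ => h (z + t • w)) (pd 0 h z * w 0 + pd 1 h z * w 1) 0 := by
  have h1 : HasDerivAt (fun t : ℂ => z + t • w) w 0 := by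
    have := ((hasDerivAt_id (0 : ℂ)).smul_const w).const_add z
    simpa using this
  have h2 : HasFDerivAt h (fderiv ℂ h z) (z + (0 : ℂ) • w) := by
    simpa using hh.hasFDerivAt
  have h3 := h2.comp_hasDerivAt (0 : ℂ) h1
  rw [fderiv_apply_eq] at h3
  exact h3

variable (g00 g01 g10 g11) in
lemma pd0_comp {h : (Fin 2 → ℂ) → ℂ} {z : Fin 2 → ℂ}
    (hh : DifferentiableAt ℂ h (gm g00 g01 g10 g11 e0 e1 z)) :
    pd 0 (fun w => h (gm g00 g01 g10 g11 e0 e1 w)) z =
      pd 0 h (gm g00 g01 g10 g11 e0 e1 z) * g00 + pd 1 h (gm g00 g01 g10 g11 e0 e1 z) * g10 := by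
  have hc : DifferentiableAt ℂ (fun w => h (gm g00 g01 g10 g11 e0 e1 w)) z :=
    hh.comp z (gm_analyticAt g00 g01 g10 g11 e0 e1 z).differentiableAt
  have l1 := line_deriv ![1, 0] hc
  have l2 := line_deriv ![g00, g10] hh
  simp only [Matrix.cons_val_zero, Matrix.cons_val_one, mul_one, mul_zero, add_zero] at l1 l2
  refine l1.unique ?_
  have he : ∀ t : ℂ, gm g00 g01 g10 g11 e0 e1 (z + t • ![1, 0]) =
      gm g00 g01 g10 g11 e0 e1 z + t • ![g00, g10] := by
    intro t
    funext i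
    fin_cases i <;> simp [gm] <;> ring
  simp only [he]
  exact l2

variable (g00 g01 g10 g11) in
lemma pd1_comp {h : (Fin 2 → ℂ) → ℂ} {z : Fin 2 → ℂ}
    (hh : DifferentiableAt ℂ h (gm g00 g01 g10 g11 e0 e1 z)) :
    pd 1 (fun w => h (gm g00 g01 g10 g11 e0 e1 w)) z =
      pd 0 h (gm g00 g01 g10 g11 e0 e1 z) * g01 + pd 1 h (gm g00 g01 g10 g11 e0 e1 z) * g11 := by
  have hc : DifferentiableAt ℂ (fun w => h (gm g00 g01 g10 g11 e0 e1 w)) z :=
    hh.comp z (gm_analyticAt g00 g01 g10 g11 e0 e1 z).differentiableAt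
  have l1 := line_deriv ![0, 1] hc
  have l2 := line_deriv ![g01, g11] hh
  simp only [Matrix.cons_val_zero, Matrix.cons_val_one, mul_one, mul_zero, zero_add] at l1 l2
  refine l1.unique ?_
  have he : ∀ t : ℂ, gm g00 g01 g10 g11 e0 e1 (z + t • ![0, 1]) =
      gm g00 g01 g10 g11 e0 e1 z + t • ![g01, g11] := by
    intro t
    funext i
    fin_cases i <;> simp [gm] <;> ring
  simp only [he]
  exact l2

lemma center_pb (hδ : g00 * g11 - g01 * g10 ≠ 0) {P Q : MvPolynomial (Fin 2) ℂ}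
    {z : Fin 2 → ℂ} (hc : IsCenter P Q (gm g00 g01 g10 g11 e0 e1 z)) :
    IsCenter (pbP g00 g01 g10 g11 e0 e1 P Q) (pbQ g00 g01 g10 g11 e0 e1 P Q) z := by
  obtain ⟨hP0, hQ0, hred, u, v, hu, hv, hu0, hv0, hJ, hev⟩ := hc
  have hg := gm_analyticAt g00 g01 g10 g11 e0 e1 z
  refine ⟨?_, ?_, ?_, fun w => u (gm g00 g01 g10 g11 e0 e1 w),
    fun w => v (gm g00 g01 g10 g11 e0 e1 w), hu.fun_comp hg, hv.fun_comp hg, hu0, hv0, ?_, ?_⟩
  · simp [pbP, eval_sub, hP0, hQ0]
  · simp [pbQ, eval_sub, hP0, hQ0]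
  · have : eval z (pderiv 0 (pbP g00 g01 g10 g11 e0 e1 P Q) *
        pderiv 1 (pbQ g00 g01 g10 g11 e0 e1 P Q) - pderiv 1 (pbP g00 g01 g10 g11 e0 e1 P Q) *
        pderiv 0 (pbQ g00 g01 g10 g11 e0 e1 P Q)) = (g00 * g11 - g01 * g10) ^ 2 *
        eval (gm g00 g01 g10 g11 e0 e1 z) (pderiv 0 P * pderiv 1 Q - pderiv 1 P * pderiv 0 Q) := by
      simp only [pbP, pbQ, map_sub, map_mul, pderiv_C_mul, pderiv0_sub, pderiv1_sub, eval_sub,
        map_add, eval_C]
      ring
    rw [this]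
    exact mul_ne_zero (pow_ne_zero 2 hδ) hred
  · rw [pd0_comp _ _ _ _ _ _ hu.differentiableAt, pd0_comp _ _ _ _ _ _ hv.differentiableAt,
      pd1_comp _ _ _ _ _ _ hu.differentiableAt, pd1_comp _ _ _ _ _ _ hv.differentiableAt]
    intro h0
    apply mul_ne_zero hJ hδ
    rw [← h0]
    ring
  · have e1' := hg.continuousAt.tendsto.eventually hev
    have e2 := hg.continuousAt.tendsto.eventually hu.eventually_analyticAt
    have e3 := hg.continuousAt.tendsto.eventually hv.eventually_analyticAt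
    filter_upwards [e1', e2, e3] with x h1 h2 h3
    have hd : DifferentiableAt ℂ (fun w => u w ^ 2 + v w ^ 2) (gm g00 g01 g10 g11 e0 e1 x) :=
      (h2.differentiableAt.pow 2).add (h3.differentiableAt.pow 2)
    rw [pd0_comp _ _ _ _ _ _ hd, pd1_comp _ _ _ _ _ _ hd]
    simp only [pbP, pbQ, map_sub, map_mul, eval_C, eval_sub]
    linear_combination (g00 * g11 - g01 * g10) * h1

lemma exists_gm_eq (hδ : g00 * g11 - g01 * g10 ≠ 0) (p : Fin 2 → ℂ) :
    ∃ z, gm g00 g01 g10 g11 e0 e1 z = p := by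
  obtain ⟨i, hi⟩ : ∃ i, (g00 * g11 - g01 * g10) * i = 1 := ⟨_, mul_inv_cancel₀ hδ⟩
  refine ⟨![(g11 * (p 0 - e0) - g01 * (p 1 - e1)) * i,
    (g00 * (p 1 - e1) - g10 * (p 0 - e0)) * i], ?_⟩
  ext j
  fin_cases j
  · simp [gm]
    linear_combination (p 0 - e0) * hi
  · simp [gm]
    linear_combination (p 1 - e1) * hi

end Pullback

/-! ### The polynomial curve of forms joining `ω` to a multiple of `d(x² + y²)` -/

section Curve

/-- constants of `ℂ[x, y][λ]` -/
noncomputable def cc (a : ℂ) : Polynomial (MvPolynomial (Fin 2) ℂ) := Polynomial.C (C a)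

lemma cc_eval (a : ℂ) (q : MvPolynomial (Fin 2) ℂ) : (cc a).eval q = C a := by simp [cc]

variable (p : Fin 2 → ℂ) (u0 u1 v0 v1 : ℂ)

/-- entries of the matrix `B = λ + (1 - λ) T` with `T` the adjugate of `(u0, u1; v0, v1)` -/
noncomputable def B00 : Polynomial (MvPolynomial (Fin 2) ℂ) :=
  Polynomial.X + (1 - Polynomial.X) * cc v1
/-- entry of `B` -/
noncomputable def B01 : Polynomial (MvPolynomial (Fin 2) ℂ) := (1 - Polynomial.X) * cc (-u1)
/-- entry of `B` -/
noncomputable def B10 : Polynomial (MvPolynomial (Fin 2) ℂ) := (1 - Polynomial.X) * cc (-v0)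
/-- entry of `B` -/
noncomputable def B11 : Polynomial (MvPolynomial (Fin 2) ℂ) :=
  Polynomial.X + (1 - Polynomial.X) * cc u0

/-- the affine family `g_λ(z) = p + λ (B z - λ p)` -/
noncomputable def fam : Fin 2 → Polynomial (MvPolynomial (Fin 2) ℂ) :=
  ![cc (p 0) + Polynomial.X * (B00 v1 * Polynomial.C (X 0) + B01 u1 * Polynomial.C (X 1) -
      Polynomial.X * cc (p 0)),
    cc (p 1) + Polynomial.X * (B10 v0 * Polynomial.C (X 0) + B11 u0 * Polynomial.C (X 1) -
      Polynomial.X * cc (p 1))]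

/-- substitution of the family -/
noncomputable def Gam : MvPolynomial (Fin 2) ℂ →ₐ[ℂ] Polynomial (MvPolynomial (Fin 2) ℂ) :=
  aeval (fam p u0 u1 v0 v1)

lemma Gam_eval (l : ℂ) (P : MvPolynomial (Fin 2) ℂ) :
    (Gam p u0 u1 v0 v1 P).eval (C l) =
      sub (l * (l + (1 - l) * v1)) (l * ((1 - l) * -u1)) (l * ((1 - l) * -v0))
        (l * (l + (1 - l) * u0)) (p 0 - l * (l * p 0)) (p 1 - l * (l * p 1)) P := by
  rw [← Polynomial.coe_evalRingHom]
  have : (Polynomial.evalRingHom (C l : MvPolynomial (Fin 2) ℂ)).comp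
      (Gam p u0 u1 v0 v1).toRingHom =
      (sub (l * (l + (1 - l) * v1)) (l * ((1 - l) * -u1)) (l * ((1 - l) * -v0))
        (l * (l + (1 - l) * u0)) (p 0 - l * (l * p 0)) (p 1 - l * (l * p 1))).toRingHom := by
    apply MvPolynomial.ringHom_ext
    · intro x
      simp [Gam, sub, Polynomial.algebraMap_apply]
    · intro i
      fin_cases i
      · simp [Gam, sub, fam, B00, B01, cc]
        ring
      · simp [Gam, sub, fam, B10, B11, cc]
        ring
  exact DFunLike.congr_fun this P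

lemma Gam_eval_zero (P : MvPolynomial (Fin 2) ℂ) :
    (Gam p u0 u1 v0 v1 P).eval 0 = C (eval p P) := by
  have h := Gam_eval p u0 u1 v0 v1 0 P
  rw [C_0] at h
  rw [h]
  have : (sub (0 * (0 + (1 - 0) * v1)) (0 * ((1 - 0) * -u1)) (0 * ((1 - 0) * -v0))
        (0 * (0 + (1 - 0) * u0)) (p 0 - 0 * (0 * p 0)) (p 1 - 0 * (0 * p 1))).toRingHom =
      (C : ℂ →+* MvPolynomial (Fin 2) ℂ).comp (eval p) := by
    apply MvPolynomial.ringHom_ext
    · intro x; simp [sub]
    · intro i; fin_cases i <;> simp [sub]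
  exact DFunLike.congr_fun this P

/-- the family divided by `λ` -/
noncomputable def Rq (P : MvPolynomial (Fin 2) ℂ) : Polynomial (MvPolynomial (Fin 2) ℂ) :=
  (Gam p u0 u1 v0 v1 P).divX

lemma Rq_spec {P : MvPolynomial (Fin 2) ℂ} (h : eval p P = 0) :
    Gam p u0 u1 v0 v1 P = Rq p u0 u1 v0 v1 P * Polynomial.X := by
  have h1 := Polynomial.divX_mul_X_add (Gam p u0 u1 v0 v1 P)
  have h2 : (Gam p u0 u1 v0 v1 P).coeff 0 = 0 := by
    rw [Polynomial.coeff_zero_eq_eval_zero, Gam_eval_zero, h, C_0]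
  rw [h2, Polynomial.C_0, add_zero] at h1
  exact h1.symm

lemma Rq_eval_zero (P : MvPolynomial (Fin 2) ℂ) :
    (Rq p u0 u1 v0 v1 P).eval 0 =
      C (eval p (pderiv 0 P)) * (C v1 * X 0 - C u1 * X 1) +
      C (eval p (pderiv 1 P)) * (- C v0 * X 0 + C u0 * X 1) := by
  rw [← Polynomial.coeff_zero_eq_eval_zero, Rq, Polynomial.coeff_divX]
  have h1 : (Gam p u0 u1 v0 v1 P).coeff (0 + 1) =
      (Polynomial.derivative (Gam p u0 u1 v0 v1 P)).eval 0 := by
    rw [← Polynomial.coeff_zero_eq_eval_zero, Polynomial.coeff_derivative]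
    simp
  rw [h1, Gam, derivative_aeval]
  have e0 := Gam_eval_zero p u0 u1 v0 v1 (pderiv 0 P)
  have e1 := Gam_eval_zero p u0 u1 v0 v1 (pderiv 1 P)
  rw [Gam] at e0 e1
  rw [Polynomial.eval_add, Polynomial.eval_mul, Polynomial.eval_mul, e0, e1]
  simp [fam, B00, B01, B10, B11, cc]
  left
  ring

variable (P Q : MvPolynomial (Fin 2) ℂ)

/-- first component of the curve of forms -/
noncomputable def phP : Polynomial (MvPolynomial (Fin 2) ℂ) :=
  B11 u0 * Rq p u0 u1 v0 v1 P - B01 u1 * Rq p u0 u1 v0 v1 Q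

/-- second component of the curve of forms -/
noncomputable def phQ : Polynomial (MvPolynomial (Fin 2) ℂ) :=
  B00 v1 * Rq p u0 u1 v0 v1 Q - B10 v0 * Rq p u0 u1 v0 v1 P

variable {P Q}

lemma phP_pb (l : ℂ) (hP : eval p P = 0) (hQ : eval p Q = 0) :
    C l ^ 2 * (phP p u0 u1 v0 v1 P Q).eval (C l) =
      pbP (l * (l + (1 - l) * v1)) (l * ((1 - l) * -u1)) (l * ((1 - l) * -v0))
        (l * (l + (1 - l) * u0)) (p 0 - l * (l * p 0)) (p 1 - l * (l * p 1)) P Q := by
  have h1 := Gam_eval p u0 u1 v0 v1 l P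
  have h2 := Gam_eval p u0 u1 v0 v1 l Q
  rw [Rq_spec p u0 u1 v0 v1 hP, Polynomial.eval_mul, Polynomial.eval_X] at h1
  rw [Rq_spec p u0 u1 v0 v1 hQ, Polynomial.eval_mul, Polynomial.eval_X] at h2
  rw [pbP, ← h1, ← h2, phP]
  simp [B11, B01, cc]
  ring

lemma phQ_pb (l : ℂ) (hP : eval p P = 0) (hQ : eval p Q = 0) :
    C l ^ 2 * (phQ p u0 u1 v0 v1 P Q).eval (C l) =
      pbQ (l * (l + (1 - l) * v1)) (l * ((1 - l) * -u1)) (l * ((1 - l) * -v0))
        (l * (l + (1 - l) * u0)) (p 0 - l * (l * p 0)) (p 1 - l * (l * p 1)) P Q := by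
  have h1 := Gam_eval p u0 u1 v0 v1 l P
  have h2 := Gam_eval p u0 u1 v0 v1 l Q
  rw [Rq_spec p u0 u1 v0 v1 hP, Polynomial.eval_mul, Polynomial.eval_X] at h1
  rw [Rq_spec p u0 u1 v0 v1 hQ, Polynomial.eval_mul, Polynomial.eval_X] at h2
  rw [pbQ, ← h1, ← h2, phQ]
  simp [B00, B10, cc]
  ring

lemma sub_id (R : MvPolynomial (Fin 2) ℂ) : sub 1 0 0 1 0 0 R = R := by
  have : sub 1 0 0 1 0 0 = AlgHom.id ℂ (MvPolynomial (Fin 2) ℂ) := by
    apply MvPolynomial.algHom_ext
    intro i; fin_cases i <;> simp [sub]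
  exact DFunLike.congr_fun this R

lemma phP_one (hP : eval p P = 0) (hQ : eval p Q = 0) :
    (phP p u0 u1 v0 v1 P Q).eval (C 1) = P := by
  have h := phP_pb p u0 u1 v0 v1 (P := P) (Q := Q) 1 hP hQ
  have e1 : (1 : ℂ) * (1 + (1 - 1) * v1) = 1 := by ring
  have e2 : (1 : ℂ) * ((1 - 1) * -u1) = 0 := by ring
  have e3 : (1 : ℂ) * ((1 - 1) * -v0) = 0 := by ring
  have e4 : (1 : ℂ) * (1 + (1 - 1) * u0) = 1 := by ring
  have e5 : p 0 - 1 * (1 * p 0) = 0 := by ring
  have e6 : p 1 - 1 * (1 * p 1) = 0 := by ring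
  rw [e1, e2, e3, e4, e5, e6, pbP, sub_id, sub_id] at h
  simpa using h

lemma phQ_one (hP : eval p P = 0) (hQ : eval p Q = 0) :
    (phQ p u0 u1 v0 v1 P Q).eval (C 1) = Q := by
  have h := phQ_pb p u0 u1 v0 v1 (P := P) (Q := Q) 1 hP hQ
  have e1 : (1 : ℂ) * (1 + (1 - 1) * v1) = 1 := by ring
  have e2 : (1 : ℂ) * ((1 - 1) * -u1) = 0 := by ring
  have e3 : (1 : ℂ) * ((1 - 1) * -v0) = 0 := by ring
  have e4 : (1 : ℂ) * (1 + (1 - 1) * u0) = 1 := by ring
  have e5 : p 0 - 1 * (1 * p 0) = 0 := by ring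
  have e6 : p 1 - 1 * (1 * p 1) = 0 := by ring
  rw [e1, e2, e3, e4, e5, e6, pbQ, sub_id, sub_id] at h
  simpa using h

variable {u0 u1 v0 v1}

lemma phP_zero {κ : ℂ} (h1 : eval p (pderiv 0 P) = κ * (u0 * u1 + v0 * v1))
    (h2 : eval p (pderiv 1 P) = κ * (u1 * u1 + v1 * v1))
    (h3 : eval p (pderiv 0 Q) = -(κ * (u0 * u0 + v0 * v0)))
    (h4 : eval p (pderiv 1 Q) = -(κ * (u0 * u1 + v0 * v1))) :
    (phP p u0 u1 v0 v1 P Q).eval 0 = C (κ * (u0 * v1 - u1 * v0) ^ 2) * X 1 := by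
  rw [phP, Polynomial.eval_sub, Polynomial.eval_mul, Polynomial.eval_mul, Rq_eval_zero,
    Rq_eval_zero, h1, h2, h3, h4]
  simp [B11, B01, cc]
  ring

lemma phQ_zero {κ : ℂ} (h1 : eval p (pderiv 0 P) = κ * (u0 * u1 + v0 * v1))
    (h2 : eval p (pderiv 1 P) = κ * (u1 * u1 + v1 * v1))
    (h3 : eval p (pderiv 0 Q) = -(κ * (u0 * u0 + v0 * v0)))
    (h4 : eval p (pderiv 1 Q) = -(κ * (u0 * u1 + v0 * v1))) :
    (phQ p u0 u1 v0 v1 P Q).eval 0 = C (κ * (u0 * v1 - u1 * v0) ^ 2) * -X 0 := by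
  rw [phQ, Polynomial.eval_sub, Polynomial.eval_mul, Polynomial.eval_mul, Rq_eval_zero,
    Rq_eval_zero, h1, h2, h3, h4]
  simp [B00, B10, cc]
  ring

/-- the coefficients of a curve are polynomial functions of the parameter -/
lemma exists_poly_coeff (H : Polynomial (MvPolynomial (Fin 2) ℂ)) (s : Fin 2 →₀ ℕ) :
    ∃ q : Polynomial ℂ, ∀ l : ℂ, q.eval l = coeff s (H.eval (C l)) := by
  refine ⟨∑ n ∈ H.support, Polynomial.C (coeff s (H.coeff n)) * Polynomial.X ^ n, ?_⟩
  intro l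
  rw [Polynomial.eval_finsetSum, Polynomial.eval_eq_sum, Polynomial.sum, coeff_sum]
  apply Finset.sum_congr rfl
  intro n _
  rw [← C_pow, mul_comm (H.coeff n), coeff_C_mul]
  simp
  ring

/-- A closed set containing infinitely many points of a polynomial curve contains all of them. -/
lemma closed_of_infinite {d : ℕ} {H K : Polynomial (MvPolynomial (Fin 2) ℂ)} {Z : Set (PForm d)}
    (hZ : IsClosed Z) (w : ℂ → Form d)
    (hw1 : ∀ l, ((w l).1 : MvPolynomial (Fin 2) ℂ) = H.eval (C l))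
    (hw2 : ∀ l, ((w l).2 : MvPolynomial (Fin 2) ℂ) = K.eval (C l))
    (hinf : {l : ℂ | ∃ h : w l ≠ 0, Projectivization.mk ℂ (w l) h ∈ Z}.Infinite)
    (l : ℂ) (h : w l ≠ 0) : Projectivization.mk ℂ (w l) h ∈ Z := by
  obtain ⟨S, hS, rfl⟩ := isClosed_iff.1 hZ
  rw [mk_mem_zeroSet hS]
  intro G hG
  have hq : ∀ i : Ind, ∃ q : Polynomial ℂ, ∀ l : ℂ, q.eval l = coef (w l) i := by
    rintro (s | s)
    · obtain ⟨q, hq⟩ := exists_poly_coeff H s
      exact ⟨q, fun l => by rw [hq, ← hw1]; rfl⟩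
    · obtain ⟨q, hq⟩ := exists_poly_coeff K s
      exact ⟨q, fun l => by rw [hq, ← hw2]; rfl⟩
  choose q hq using hq
  have hev : ∀ l : ℂ, (aeval q G).eval l = eval (coef (w l)) G := by
    intro l
    rw [← Polynomial.coe_evalRingHom]
    have : (Polynomial.evalRingHom l).comp (aeval q).toRingHom = eval (coef (w l)) := by
      apply MvPolynomial.ringHom_ext
      · intro x; simp
      · intro i; simp [hq]
    exact DFunLike.congr_fun this G
  have hzero : aeval q G = 0 := by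
    apply Polynomial.eq_zero_of_infinite_isRoot
    refine hinf.mono ?_
    rintro l' ⟨h', hl'⟩
    rw [mk_mem_zeroSet hS] at hl'
    show (aeval q G).eval l' = 0
    rw [hev]
    exact hl' G hG
  rw [← hev, hzero, Polynomial.eval_zero]

end Curve

/-! ### Sanity check: there are foliations with a center, and the center locus has components -/

section Sanity

lemma pd_eval (P : MvPolynomial (Fin 2) ℂ) (z : Fin 2 → ℂ) (i : Fin 2) :
    pd i (fun w => eval w P) z = eval z (pderiv i P) := by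
  have hd : DifferentiableAt ℂ (fun w : Fin 2 → ℂ => eval w P) z := by
    have := AnalyticAt.aeval_mvPolynomial (𝕜 := ℂ) (A := ℂ) (B := ℂ) (f := fun w : Fin 2 → ℂ => w)
      (z := z) (fun i => (ContinuousLinearMap.proj (R := ℂ) (φ := fun _ : Fin 2 => ℂ) i).analyticAt z)
      P
    simpa [aeval_eq_eval] using this.differentiableAt
  let f : Fin 2 → Polynomial ℂ := fun j =>
    Polynomial.C (z j) + Polynomial.X * Polynomial.C ((Pi.single i 1 : Fin 2 → ℂ) j)
  have hev : ∀ (t : ℂ) (Q : MvPolynomial (Fin 2) ℂ),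
      (aeval f Q).eval t = eval (z + t • (Pi.single i 1 : Fin 2 → ℂ)) Q := by
    intro t Q
    rw [← Polynomial.coe_evalRingHom]
    have : (Polynomial.evalRingHom t).comp (aeval f).toRingHom =
        eval (z + t • (Pi.single i 1 : Fin 2 → ℂ)) := by
      apply MvPolynomial.ringHom_ext
      · intro x; simp
      · intro s; simp [f]; ring
    exact DFunLike.congr_fun this Q
  have l1 := line_deriv (Pi.single i 1) hd
  have l2 := (aeval f P).hasDerivAt 0
  have l3 : HasDerivAt (fun t : ℂ => eval (z + t • (Pi.single i 1 : Fin 2 → ℂ)) P)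
      ((Polynomial.derivative (aeval f P)).eval 0) 0 := by
    simpa only [hev] using l2
  have h := l1.unique l3
  rw [derivative_aeval] at h
  simp only [Polynomial.eval_add, Polynomial.eval_mul, hev, zero_smul, add_zero] at h
  fin_cases i
  · simpa [f] using h
  · simpa [f] using h

/-- the Hamiltonian `x² + x^(d+1) + y²` -/
noncomputable def ham0 (d : ℕ) : MvPolynomial (Fin 2) ℂ := X 0 ^ 2 + X 0 ^ (d + 1) + X 1 ^ 2

lemma ham0_1 (d : ℕ) : pderiv 1 (ham0 d) = C 2 * X 1 := by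
  have : (C 2 : MvPolynomial (Fin 2) ℂ) = 2 := map_ofNat C 2
  rw [this]
  simp [ham0, pderiv_X]

lemma ham0_0 (d : ℕ) : pderiv 0 (ham0 d) = C 2 * X 0 + C ((d : ℂ) + 1) * X 0 ^ d := by
  have : (C 2 : MvPolynomial (Fin 2) ℂ) = 2 := map_ofNat C 2
  rw [this]
  simp [ham0, pderiv_X]

lemma isCenter_ham0 {d : ℕ} (hd : 2 ≤ d) :
    IsCenter (pderiv 1 (ham0 d)) (-pderiv 0 (ham0 d)) 0 := by
  have hd0 : d ≠ 0 := by omega
  have hd1 : d - 1 ≠ 0 := by omega
  have hproj : ∀ i : Fin 2, AnalyticAt ℂ (fun z : Fin 2 → ℂ => z i) 0 := fun i =>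
    (ContinuousLinearMap.proj (R := ℂ) (φ := fun _ : Fin 2 => ℂ) i).analyticAt 0
  have hs : AnalyticAt ℂ (fun z : Fin 2 → ℂ => (1 + z 0 ^ (d - 1)) ^ (((2 : ℕ) : ℂ)⁻¹)) 0 := by
    apply (analyticAt_const.add ((hproj 0).pow (d - 1))).cpow analyticAt_const
    simp [hd1]
  have hpr : ∀ i j : Fin 2, pd i (fun z : Fin 2 → ℂ => z j) 0 = if i = j then 1 else 0 := by
    intro i j
    have := pd_eval (X j) 0 i
    simp only [eval_X] at this
    rw [this, pderiv_X]
    by_cases h : i = j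
    · subst h; simp
    · simp [h, Ne.symm h]
  have hpu : ∀ i : Fin 2, pd i (fun z : Fin 2 → ℂ => z 0 *
      (1 + z 0 ^ (d - 1)) ^ (((2 : ℕ) : ℂ)⁻¹)) 0 = if i = 0 then 1 else 0 := by
    intro i
    have h1 := (hproj 0).differentiableAt.hasFDerivAt.mul hs.differentiableAt.hasFDerivAt
    have h2 : HasFDerivAt (fun z : Fin 2 → ℂ => z 0 *
      (1 + z 0 ^ (d - 1)) ^ (((2 : ℕ) : ℂ)⁻¹)) _ 0 := h1
    have h3 := hpr i 0
    unfold pd at h3 ⊢
    rw [h2.fderiv]
    simp only [Pi.zero_apply, zero_add, add_apply,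
      smul_apply, smul_eq_mul, h3, zero_mul]
    simp [hd1]
  refine ⟨?_, ?_, ?_, fun z => z 0 * (1 + z 0 ^ (d - 1)) ^ (((2 : ℕ) : ℂ)⁻¹), fun z => z 1,
    (hproj 0).mul hs, hproj 1, by simp, by simp, ?_, ?_⟩
  · rw [ham0_1]; simp
  · rw [ham0_0]; simp [hd0]
  · rw [ham0_0, ham0_1]
    simp [pderiv_X, hd1]
  · rw [hpu 0, hpu 1, hpr 0 1, hpr 1 1]
    simp
  · have he : (fun w : Fin 2 → ℂ => (w 0 * (1 + w 0 ^ (d - 1)) ^ (((2 : ℕ) : ℂ)⁻¹)) ^ 2 +
        w 1 ^ 2) = fun w => eval w (ham0 d) := by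
      funext w
      rw [mul_pow, Complex.cpow_nat_inv_pow _ (by norm_num)]
      simp only [ham0, map_add, map_pow, eval_X]
      obtain ⟨n, rfl⟩ : ∃ n, d = n + 1 := ⟨d - 1, by omega⟩
      simp only [Nat.add_sub_cancel]
      ring
    refine Filter.Eventually.of_forall fun z => ?_
    rw [he, pd_eval, pd_eval, map_neg]
    ring

lemma centers_nonempty {d : ℕ} (hd : 2 ≤ d) : (centers d).Nonempty := by
  have hc := isCenter_ham0 hd
  have hP : (pderiv 1 (ham0 d)).totalDegree ≤ d := by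
    rw [ham0_1]
    refine (totalDegree_C_mul_le _ _).trans ?_
    rw [totalDegree_X]; omega
  have hQ : (-pderiv 0 (ham0 d)).totalDegree ≤ d := by
    rw [totalDegree_neg, ham0_0]
    refine (totalDegree_add _ _).trans (max_le ?_ ?_)
    · refine (totalDegree_C_mul_le _ _).trans ?_
      rw [totalDegree_X]; omega
    · refine (totalDegree_C_mul_le _ _).trans ?_
      rw [totalDegree_X_pow]
  have hne : ¬ (pderiv 1 (ham0 d) = 0 ∧ -pderiv 0 (ham0 d) = 0) := by
    rintro ⟨h1, h2⟩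
    rw [h1, h2] at hc
    exact hc.2.2.1 (by simp)
  refine ⟨_, (⟨_, (mem_restrictTotalDegree _ _ _).2 hP⟩, ⟨_, (mem_restrictTotalDegree _ _ _).2 hQ⟩),
    ?_, rfl, ?_, ?_, 0, hc⟩
  · intro h
    exact hne ⟨congrArg Subtype.val (congrArg Prod.fst h), congrArg Subtype.val (congrArg Prod.snd h)⟩
  · show IsRelPrime (pderiv 1 (ham0 d)) (-pderiv 0 (ham0 d))
    rw [ham0_1]
    have hirr : Irreducible (C 2 * X 1 : MvPolynomial (Fin 2) ℂ) := by
      have hu : IsUnit (C 2 : MvPolynomial (Fin 2) ℂ) := (IsUnit.mk0 (2 : ℂ) (by norm_num)).map C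
      exact (irreducible_isUnit_mul hu).2 (X_prime.irreducible)
    rw [hirr.isRelPrime_iff_not_dvd]
    rintro ⟨A, hA⟩
    have := congrArg (aeval ![(1 : ℂ), 0]) hA
    rw [ham0_0] at this
    simp at this
    have h3 : (2 : ℂ) + (d + 1) = ((d + 3 : ℕ) : ℂ) := by push_cast; ring
    rw [← neg_eq_zero] at this
    have h4 : ((d + 3 : ℕ) : ℂ) = 0 := by rw [← h3]; linear_combination this
    exact absurd (Nat.cast_eq_zero.1 h4) (by omega)
  · show max (pderiv 1 (ham0 d)).totalDegree (-pderiv 0 (ham0 d)).totalDegree = d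
    apply le_antisymm (max_le hP hQ)
    apply le_max_of_le_right
    rw [totalDegree_neg, ham0_0]
    have hcoef : coeff (Finsupp.single 0 d) (C 2 * X 0 + C ((d : ℂ) + 1) * X 0 ^ d :
        MvPolynomial (Fin 2) ℂ) ≠ 0 := by
      rw [coeff_add, coeff_C_mul, coeff_C_mul, coeff_X_pow, if_pos rfl, X, coeff_monomial, if_neg]
      · simp only [mul_zero, mul_one, zero_add]
        exact_mod_cast Nat.succ_ne_zero d
      · intro h
        have := DFunLike.congr_fun h 0
        simp at this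
        omega
    have := le_totalDegree (mem_support_iff.2 hcoef)
    simpa using this

/-- the center locus has at least one irreducible component (so the main theorem is not vacuous) -/
lemma exists_component {d : ℕ} (hd : 2 ≤ d) : ∃ Z, IsComponent (centerLocus d) Z := by
  obtain ⟨x, hx⟩ := centers_nonempty hd
  obtain ⟨S, hSf, hSc, hSi, hSU⟩ :=
    TopologicalSpace.NoetherianSpace.exists_finite_set_isClosed_irreducible
      (isClosed_closure (s := centers d))
  have hne : S.Nonempty := by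
    by_contra h
    rw [Set.not_nonempty_iff_eq_empty] at h
    rw [h, Set.sUnion_empty] at hSU
    exact (Set.mem_empty_iff_false x).1 (hSU ▸ subset_closure hx)
  obtain ⟨t, ht⟩ := hSf.exists_maximal hne
  refine ⟨t, ⟨hSi t ht.prop, ?_⟩, ?_⟩
  · rw [centerLocus, hSU]
    exact Set.subset_sUnion_of_mem ht.prop
  rintro Y ⟨hYi, hYM⟩ htY
  have hYM' : Y ⊆ ⋃₀ (hSf.toFinset : Set (Set (PForm d))) := by
    rw [hSf.coe_toFinset]
    intro y hy
    have := hYM hy
    rw [centerLocus, hSU] at this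
    exact this
  obtain ⟨t', ht', hYt'⟩ := (isIrreducible_iff_sUnion_isClosed.1 hYi) hSf.toFinset
    (fun z hz => hSc z (hSf.mem_toFinset.1 hz)) hYM'
  exact hYt'.trans (ht.le_of_ge (hSf.mem_toFinset.1 ht') (htY.trans hYt'))

end Sanity

/-! ### Main theorem -/

section Main

lemma not_both_zero {P Q : MvPolynomial (Fin 2) ℂ} {p : Fin 2 → ℂ} (hc : IsCenter P Q p) :
    ¬ (P = 0 ∧ Q = 0) := by
  rintro ⟨rfl, rfl⟩
  exact hc.2.2.1 (by simp)

/-- Every irreducible component of the center locus contains the Hamiltonian foliation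
`d(x² + y²) = 0`. -/
theorem result (d : ℕ) (hd : 2 ≤ d) (Z : Set (PForm d)) (hZ : IsComponent (centerLocus d) Z) :
    ∃ (ω : Form d) (h : ω ≠ 0), (ω.1 : MvPolynomial (Fin 2) ℂ) = X 1 ∧
      (ω.2 : MvPolynomial (Fin 2) ℂ) = -X 0 ∧
      Projectivization.mk ℂ ω h ∈ Z ∩ hamiltonian d := by
  classical
  obtain ⟨Y, hYc, hMY, hZY⟩ := exists_complement isClosed_closure hZ
  have hZc : IsClosed Z := by
    have h1 : IsIrreducible (closure Z) ∧ closure Z ⊆ centerLocus d :=
      ⟨hZ.prop.1.closure, isClosed_closure.closure_subset_iff.2 hZ.prop.2⟩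
    have h2 := hZ.le_of_ge h1 subset_closure
    rw [← Set.Subset.antisymm h2 subset_closure]
    exact isClosed_closure
  -- a foliation with a center outside of `Y`
  obtain ⟨x, hxc, hxY⟩ : ∃ x ∈ centers d, x ∉ Y := by
    by_contra hcon
    push Not at hcon
    apply hZY
    exact hZ.prop.2.trans (closure_minimal hcon hYc)
  obtain ⟨ω, hω, rfl, hrel, hdeg, p, hc⟩ := hxc
  obtain ⟨u0, u1, v0, v1, κ, hκ, hδ, j1, j2, j3, j4⟩ := jet hc
  have hP0 := hc.1
  have hQ0 := hc.2.1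
  set P : MvPolynomial (Fin 2) ℂ := (ω.1 : MvPolynomial (Fin 2) ℂ) with hP
  set Q : MvPolynomial (Fin 2) ℂ := (ω.2 : MvPolynomial (Fin 2) ℂ) with hQ
  have hPd : P.totalDegree ≤ d := (mem_restrictTotalDegree _ _ _).1 ω.1.2
  have hQd : Q.totalDegree ≤ d := (mem_restrictTotalDegree _ _ _).1 ω.2.2
  have hκδ : κ * (u0 * v1 - u1 * v0) ^ 2 ≠ 0 := mul_ne_zero hκ (pow_ne_zero 2 hδ)
  -- degrees
  have hX : ∀ i : Fin 2, (X i : MvPolynomial (Fin 2) ℂ).totalDegree ≤ d := by
    intro i; rw [totalDegree_X]; omega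
  have hback : ∀ (l : ℂ), l ≠ 0 → ∀ R S : MvPolynomial (Fin 2) ℂ, C l ^ 2 * R = S →
      S.totalDegree ≤ d → R.totalDegree ≤ d := by
    intro l hl R S hRS hS
    have : R = C ((l ^ 2)⁻¹) * S := by
      rw [← hRS, ← mul_assoc, ← C_pow, ← C_mul, inv_mul_cancel₀ (pow_ne_zero 2 hl), C_1, one_mul]
    rw [this]
    exact (totalDegree_C_mul_le _ _).trans hS
  have hdP : ∀ l : ℂ, ((phP p u0 u1 v0 v1 P Q).eval (C l)).totalDegree ≤ d := by
    intro l
    by_cases hl : l = 0
    · rw [hl, C_0, phP_zero p j1 j2 j3 j4]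
      exact (totalDegree_C_mul_le _ _).trans (hX 1)
    · exact hback l hl _ _ (phP_pb p u0 u1 v0 v1 l hP0 hQ0) (totalDegree_pbP_le _ _ hPd hQd)
  have hdQ : ∀ l : ℂ, ((phQ p u0 u1 v0 v1 P Q).eval (C l)).totalDegree ≤ d := by
    intro l
    by_cases hl : l = 0
    · rw [hl, C_0, phQ_zero p j1 j2 j3 j4]
      exact (totalDegree_C_mul_le _ _).trans (by rw [totalDegree_neg]; exact hX 0)
    · exact hback l hl _ _ (phQ_pb p u0 u1 v0 v1 l hP0 hQ0) (totalDegree_pbQ_le _ _ hPd hQd)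
  let w : ℂ → Form d := fun l =>
    (⟨(phP p u0 u1 v0 v1 P Q).eval (C l), (mem_restrictTotalDegree _ _ _).2 (hdP l)⟩,
      ⟨(phQ p u0 u1 v0 v1 P Q).eval (C l), (mem_restrictTotalDegree _ _ _).2 (hdQ l)⟩)
  -- the determinant of `B`
  let D : Polynomial ℂ := (Polynomial.X + (1 - Polynomial.X) * Polynomial.C v1) *
    (Polynomial.X + (1 - Polynomial.X) * Polynomial.C u0) -
    (1 - Polynomial.X) * Polynomial.C (-u1) * ((1 - Polynomial.X) * Polynomial.C (-v0))
  have hDne : Polynomial.X * D ≠ 0 := by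
    intro h
    have := congrArg (Polynomial.eval 1) h
    simp [D] at this
  have hgood : ∀ l : ℂ, l ∉ (Polynomial.X * D).roots.toFinset →
      ∃ h : w l ≠ 0, Projectivization.mk ℂ (w l) h ∈ centers d := by
    intro l hl
    rw [Multiset.mem_toFinset, Polynomial.mem_roots hDne, Polynomial.IsRoot] at hl
    have hl0 : l ≠ 0 := by
      rintro rfl
      exact hl (by simp)
    have hlD : D.eval l ≠ 0 := by
      intro h
      exact hl (by rw [Polynomial.eval_mul, h, mul_zero])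
    have hdet : (l * (l + (1 - l) * v1)) * (l * (l + (1 - l) * u0)) -
        (l * ((1 - l) * -u1)) * (l * ((1 - l) * -v0)) ≠ 0 := by
      have : (l * (l + (1 - l) * v1)) * (l * (l + (1 - l) * u0)) -
        (l * ((1 - l) * -u1)) * (l * ((1 - l) * -v0)) = l ^ 2 * D.eval l := by
        simp [D]
        ring
      rw [this]
      exact mul_ne_zero (pow_ne_zero 2 hl0) hlD
    obtain ⟨z, hz⟩ := exists_gm_eq (p 0 - l * (l * p 0)) (p 1 - l * (l * p 1)) hdet p
    have hc' := center_pb (p 0 - l * (l * p 0)) (p 1 - l * (l * p 1)) hdet (z := z) (P := P)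
      (Q := Q) (by rw [hz]; exact hc)
    have hPp := phP_pb p u0 u1 v0 v1 (P := P) (Q := Q) l hP0 hQ0
    have hQp := phQ_pb p u0 u1 v0 v1 (P := P) (Q := Q) l hP0 hQ0
    have hrel' := relPrime_pb (p 0 - l * (l * p 0)) (p 1 - l * (l * p 1)) hdet hrel
    have hdeg' := deg_pb (p 0 - l * (l * p 0)) (p 1 - l * (l * p 1)) hdet P Q
    set P' := pbP (l * (l + (1 - l) * v1)) (l * ((1 - l) * -u1)) (l * ((1 - l) * -v0))
        (l * (l + (1 - l) * u0)) (p 0 - l * (l * p 0)) (p 1 - l * (l * p 1)) P Q with hP'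
    set Q' := pbQ (l * (l + (1 - l) * v1)) (l * ((1 - l) * -u1)) (l * ((1 - l) * -v0))
        (l * (l + (1 - l) * u0)) (p 0 - l * (l * p 0)) (p 1 - l * (l * p 1)) P Q with hQ'
    have hPd' : P'.totalDegree ≤ d := totalDegree_pbP_le _ _ hPd hQd
    have hQd' : Q'.totalDegree ≤ d := totalDegree_pbQ_le _ _ hPd hQd
    let ω' : Form d := (⟨P', (mem_restrictTotalDegree _ _ _).2 hPd'⟩,
      ⟨Q', (mem_restrictTotalDegree _ _ _).2 hQd'⟩)
    have hω' : ω' ≠ 0 := by
      intro h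
      apply not_both_zero hc'
      exact ⟨congrArg Subtype.val (congrArg Prod.fst h), congrArg Subtype.val (congrArg Prod.snd h)⟩
    have hsm : ω' = (l ^ 2) • w l := by
      apply Prod.ext
      · apply Subtype.ext
        show P' = (l ^ 2) • (phP p u0 u1 v0 v1 P Q).eval (C l)
        rw [← hPp, smul_eq_C_mul, C_pow]
      · apply Subtype.ext
        show Q' = (l ^ 2) • (phQ p u0 u1 v0 v1 P Q).eval (C l)
        rw [← hQp, smul_eq_C_mul, C_pow]
    have hw : w l ≠ 0 := by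
      intro h
      rw [h, smul_zero] at hsm
      exact hω' hsm
    refine ⟨hw, ω', hω', ?_, hrel', ?_, z, hc'⟩
    · rw [Projectivization.mk_eq_mk_iff']
      refine ⟨(l ^ 2)⁻¹, ?_⟩
      rw [hsm, smul_smul, inv_mul_cancel₀ (pow_ne_zero 2 hl0), one_smul]
    · exact hdeg'.trans hdeg
  -- infinitely many parameters in `Z` or in `Y`
  have hinf : ({l : ℂ | ∃ h : w l ≠ 0, Projectivization.mk ℂ (w l) h ∈ Z} ∪
      {l : ℂ | ∃ h : w l ≠ 0, Projectivization.mk ℂ (w l) h ∈ Y}).Infinite := by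
    have h1 : (((Polynomial.X * D).roots.toFinset : Set ℂ)ᶜ).Infinite :=
      (Finset.finite_toSet _).infinite_compl
    refine h1.mono ?_
    intro l hl
    obtain ⟨h, hm⟩ := hgood l (by simpa using hl)
    rcases hMY (subset_closure hm) with h2 | h2
    · exact Or.inl ⟨h, h2⟩
    · exact Or.inr ⟨h, h2⟩
  have hw1 : w 1 = ω := by
    apply Prod.ext
    · apply Subtype.ext
      exact phP_one p u0 u1 v0 v1 hP0 hQ0
    · apply Subtype.ext
      exact phQ_one p u0 u1 v0 v1 hP0 hQ0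
  have hZinf : {l : ℂ | ∃ h : w l ≠ 0, Projectivization.mk ℂ (w l) h ∈ Z}.Infinite := by
    rcases Set.infinite_union.1 hinf with h | h
    · exact h
    · exfalso
      apply hxY
      have := closed_of_infinite hYc w (fun _ => rfl) (fun _ => rfl) h 1 (by rw [hw1]; exact hω)
      simpa only [hw1] using this
  -- the point at `λ = 0`
  let ω0 : Form d := (⟨X 1, (mem_restrictTotalDegree _ _ _).2 (hX 1)⟩,
    ⟨-X 0, (mem_restrictTotalDegree _ _ _).2 (by rw [totalDegree_neg]; exact hX 0)⟩)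
  have hω0 : ω0 ≠ 0 := by
    intro h
    have : (X 1 : MvPolynomial (Fin 2) ℂ) = 0 := congrArg Subtype.val (congrArg Prod.fst h)
    exact X_ne_zero 1 this
  have hw0 : w 0 = (κ * (u0 * v1 - u1 * v0) ^ 2) • ω0 := by
    apply Prod.ext
    · apply Subtype.ext
      show (phP p u0 u1 v0 v1 P Q).eval (C 0) = _ • (X 1 : MvPolynomial (Fin 2) ℂ)
      rw [C_0, phP_zero p j1 j2 j3 j4, smul_eq_C_mul]
    · apply Subtype.ext
      show (phQ p u0 u1 v0 v1 P Q).eval (C 0) = _ • (-X 0 : MvPolynomial (Fin 2) ℂ)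
      rw [C_0, phQ_zero p j1 j2 j3 j4, smul_eq_C_mul]
  have hw0' : w 0 ≠ 0 := by
    rw [hw0]
    exact smul_ne_zero hκδ hω0
  have hmem := closed_of_infinite hZc w (fun _ => rfl) (fun _ => rfl) hZinf 0 hw0'
  have heq : Projectivization.mk ℂ ω0 hω0 = Projectivization.mk ℂ (w 0) hw0' := by
    rw [Projectivization.mk_eq_mk_iff']
    refine ⟨(κ * (u0 * v1 - u1 * v0) ^ 2)⁻¹, ?_⟩
    rw [hw0, smul_smul, inv_mul_cancel₀ hκδ, one_smul]
  refine ⟨ω0, hω0, rfl, rfl, ?_, ?_⟩
  · rw [heq]; exact hmem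
  · refine ⟨ω0, hω0, C 2⁻¹ * (X 0 ^ 2 + X 1 ^ 2), rfl, ?_, ?_, ?_⟩
    · refine (totalDegree_C_mul_le _ _).trans ((totalDegree_add _ _).trans (max_le ?_ ?_))
      · rw [totalDegree_X_pow]; omega
      · rw [totalDegree_X_pow]; omega
    · show (X 1 : MvPolynomial (Fin 2) ℂ) = _
      have h2 : (C 2⁻¹ * 2 : MvPolynomial (Fin 2) ℂ) = 1 := by
        rw [← map_ofNat (C : ℂ →+* MvPolynomial (Fin 2) ℂ) 2, ← C_mul]; norm_num
      simp [pderiv_X]
      linear_combination (-X 1) * h2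
    · show (-X 0 : MvPolynomial (Fin 2) ℂ) = _
      have h2 : (C 2⁻¹ * 2 : MvPolynomial (Fin 2) ℂ) = 1 := by
        rw [← map_ofNat (C : ℂ →+* MvPolynomial (Fin 2) ℂ) 2, ← C_mul]; norm_num
      simp [pderiv_X]
      linear_combination (-X 0) * h2

end Main

end Pool.Agent.Results.MP_9e47d4_ag.Common
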